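import Pool.Agent.Lib.MP_081b1f_co.Proj

open scoped LinearAlgebra.Projectivization

namespace Pool.Agent.Results.MP_081b1f_co.BlockTransitive

theorem result (F : Type) [Field F] [Fintype F] (k : ℕ) (hk : 6 < k)
    (hkq : k < Fintype.card F + 1) (B : Set (Finset (ℙ F (Fin 2 → F))))
    (hsize : ∀ b ∈ B, b.card = k)
    (hst : ∀ T : Finset (ℙ F (Fin 2 → F)), T.card = 6 → ∃! b, b ∈ B ∧ T ⊆ b)
    (G : Subgroup (Equiv.Perm (ℙ F (Fin 2 → F))))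
    (hG : ∀ g ∈ G, ∃ (σ : F →+* F) (L : (Fin 2 → F) →ₛₗ[σ] (Fin 2 → F))
      (hL : Function.Injective L), ∀ x, g x = Projectivization.map L hL x)
    (hB : ∀ g ∈ G, ∀ b ∈ B, b.map g.toEmbedding ∈ B) :
    ¬ ∀ b ∈ B, ∀ b' ∈ B, ∃ g ∈ G, b.map g.toEmbedding = b' :=
  Pool.Agent.Lib.MP_081b1f_co.main F k hk hkq B hsize hst G hG hB

end Pool.Agent.Results.MP_081b1f_co.BlockTransitive
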