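import Pool.Agent.FS.SuperQuad.Four

namespace Pool.Agent.Results.MP_081b1f_co.StrengthFour

theorem result (n q r : ℕ) (hr : 4 ≤ r) (hq : r < q) (hn : q < n) (B : Finset (Finset (Fin n)))
    (hsize : ∀ b ∈ B, b.card = q)
    (hst : ∀ T : Finset (Fin n), T.card = r → ∃! b, b ∈ B ∧ T ⊆ b) :
    (q - r + 2) ^ 25 ≤ 10 ^ 12 * (n - r + 1) ^ 12 := by
  have h : Pool.Agent.FS.SuperQuad.St r q B :=
    ⟨hsize, fun T hT => (hst T hT).exists, fun T hT b hb b' hb' h1 h2 =>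
      (hst T hT).unique ⟨hb, h1⟩ ⟨hb', h2⟩⟩
  simpa using Pool.Agent.FS.SuperQuad.main4 h hr hq (by simpa using hn)

end Pool.Agent.Results.MP_081b1f_co.StrengthFour
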