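import Pool.Agent.FS.SteinerGrowth.Main

namespace Pool.Agent.Results.MP_081b1f_co.UnboundedExponent

theorem result (A : ℕ) : ∃ r₀ C : ℕ, ∀ n q r : ℕ, r₀ ≤ r → r < q → q < n →
    ∀ B : Finset (Finset (Fin n)), (∀ b ∈ B, b.card = q) →
      (∀ T : Finset (Fin n), T.card = r → ∃! b, b ∈ B ∧ T ⊆ b) →
      (q - r + 2) ^ A ≤ C * (n - r + 1) := by
  obtain ⟨r₀, C, h⟩ := Pool.Agent.FS.SteinerGrowth.main A
  refine ⟨r₀, C, fun n q r hr hq hn B hsize hst => h n r q B ?_ hr hq hn⟩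
  exact ⟨hsize, fun T hT => (hst T hT).exists, fun T hT b hb b' hb' h1 h2 =>
    (hst T hT).unique ⟨hb, h1⟩ ⟨hb', h2⟩⟩

end Pool.Agent.Results.MP_081b1f_co.UnboundedExponent
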